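import Pool.Agent.H482R3.SOS.Lit

set_option autoImplicit false

/-!
# Wagner's sum-of-squares conjecture for the spanning-forest Rayleigh difference is false

The Rayleigh difference `ΔG{e, f}` of the spanning forest polynomial is not SOS when the graph
contains a Moebius ladder on eight vertices (as a subgraph, not necessarily induced) in which `e`
and `f` are opposite rim edges. In particular the Moebius ladder on eight vertices itself and every
complete graph on at least eight vertices are counterexamples.

Both readings of the definition of the family `𝒜(S)` are covered: the literal one (`lit = true`),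
and the one in which `A ∪ {e, f}` contains exactly one cycle, and this cycle contains `S ∪ {e, f}`
(`lit = false`).
-/

namespace Pool.Agent.Results.MP_b10ab5_co.MoebiusLadderNotSOS

open Pool.Agent.H482R3.SOS

/-- Let `ends : E → Sym2 V` be a finite graph and let `κ`, `ι` embed the Moebius ladder on eight
vertices into it. Then `ΔG{e, f}` is not SOS, where `e = ι 10` and `f = ι 11` are the images of two
opposite rim edges. This holds for both readings of the definition of `𝒜(S)`. -/
theorem result {V E : Type} [Fintype E] [DecidableEq E] (ends : E → Sym2 V)
    (κ : Fin 8 ↪ V) (ι : Fin 12 ↪ E) (h : ∀ i, ends (ι i) = (ladder i).map κ) (lit : Bool) :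
    ¬ IsSOS lit ends (ι 10) (ι 11) :=
  LadderIn.not_sos ⟨κ, ι, h⟩ lit

end Pool.Agent.Results.MP_b10ab5_co.MoebiusLadderNotSOS
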